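import Pool.Agent.L7h37.WB.Win

/-! Project WB of helper67 (hard anchor MP_570bef_nt): `S_INT` (from `S_WIN`, dyadic decomposition). -/

set_option autoImplicit false

namespace Pool.Agent.L7h37.WB

open Finset MeasureTheory

/-- the sum over `p` of the numbers of good windows -/
theorem sum_nw (α : Type) (Y : Finset α) (f f1 : α → ℝ → ℝ) (R M L A Tm T Δ : ℝ)
    (hR : 1 ≤ R) (hM : 1 ≤ M) (hL : 1 ≤ L) (hA : 0 ≤ A) (hT : Real.sqrt M ≤ T) (hT2 : T ≤ 2 * Tm)
    (hΔ : Δ = min 1 (T / (8 * M)))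
    (H : ∀ θ, |θ| ≤ R + 2 → ∀ T, Real.sqrt M ≤ T → T ≤ 2 * Tm → ∀ X : Finset α, X ⊆ Y →
      (∀ p ∈ X, |f p θ| ≤ 8 * L * (T * min 1 (T / M)) ∧ |f1 p θ| ≤ 4 * T) →
      (#X : ℝ) ≤ A * (T * min 1 (T / M))) :
    Δ * ∑ p ∈ Y, (nw (f p) (f1 p) R L T Δ : ℝ) ≤ 4 * R * A * (T * min 1 (T / M)) := by
  classical
  have hM0 : 0 < M := by linarith
  have hsM : 1 ≤ Real.sqrt M := Real.one_le_sqrt.2 hM
  have hsq : Real.sqrt M * Real.sqrt M = M := Real.mul_self_sqrt hM0.le
  have hT0 : 0 < T := by linarith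
  have hT1 : 1 ≤ T := by linarith
  have hΔ0 : 0 < Δ := by
    rw [hΔ]
    exact lt_min one_pos (by positivity)
  have hΔ1 : Δ ≤ 1 := by rw [hΔ]; exact min_le_left _ _
  set m : ℝ := T * min 1 (T / M) with hm
  have hm1 : 1 ≤ m := by
    rw [hm]
    rcases le_total 1 (T / M) with h | h
    · rw [min_eq_left h]; linarith
    · rw [min_eq_right h, ← mul_div_assoc, le_div_iff₀ hM0]
      calc 1 * M = Real.sqrt M * Real.sqrt M := by rw [hsq]; ring
        _ ≤ T * T := mul_le_mul hT hT (by linarith) hT0.le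
  have hmΔ : T * Δ ≤ m := by
    rw [hm, hΔ]
    refine mul_le_mul_of_nonneg_left (min_le_min le_rfl ?_) hT0.le
    exact div_le_div_of_nonneg_left hT0.le hM0 (by linarith)
  have hcomm : ∑ p ∈ Y, (nw (f p) (f1 p) R L T Δ : ℝ) =
      ∑ j ∈ range (⌈2 * R / Δ⌉₊ + 1), ((Y.filter (fun p =>
        |f p (-R + (j : ℕ) * Δ)| ≤ L + 4 * T * Δ ∧ |f1 p (-R + (j : ℕ) * Δ)| ≤ 4 * T)).card : ℝ) := by
    unfold nw
    simp only [Finset.card_filter]
    push_cast
    rw [Finset.sum_comm]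
  have hpt : ∀ j ∈ range (⌈2 * R / Δ⌉₊ + 1), ((Y.filter (fun p =>
        |f p (-R + (j : ℕ) * Δ)| ≤ L + 4 * T * Δ ∧ |f1 p (-R + (j : ℕ) * Δ)| ≤ 4 * T)).card : ℝ) ≤
        A * m := by
    intro j hj
    have hj' : (j : ℝ) ≤ ⌈2 * R / Δ⌉₊ := by
      have := Finset.mem_range.1 hj
      exact_mod_cast Nat.lt_succ_iff.1 this
    have hc : (⌈2 * R / Δ⌉₊ : ℝ) < 2 * R / Δ + 1 := Nat.ceil_lt_add_one (by positivity)
    have hjΔ : (j : ℝ) * Δ ≤ 2 * R + Δ := by
      have h1 : (j : ℝ) * Δ ≤ (2 * R / Δ + 1) * Δ :=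
        mul_le_mul_of_nonneg_right (by linarith) hΔ0.le
      have h2 : (2 * R / Δ + 1) * Δ = 2 * R + Δ := by field_simp
      linarith
    have hj0 : 0 ≤ (j : ℝ) * Δ := by positivity
    refine H (-R + (j : ℕ) * Δ) (abs_le.2 ⟨by linarith, by linarith⟩) T hT hT2 _
      (Finset.filter_subset _ _) ?_
    intro p hp
    obtain ⟨h1, h2⟩ := (Finset.mem_filter.1 hp).2
    refine ⟨h1.trans ?_, h2⟩
    have e1 : 4 * T * Δ ≤ 4 * m := by linarith
    have e2 : L ≤ L * m := le_mul_of_one_le_right (by linarith) hm1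
    have e3 : m ≤ L * m := le_mul_of_one_le_left (by linarith) hL
    show L + 4 * T * Δ ≤ 8 * L * m
    nlinarith
  have hcard : ((⌈2 * R / Δ⌉₊ + 1 : ℕ) : ℝ) * Δ ≤ 4 * R := by
    have hc : (⌈2 * R / Δ⌉₊ : ℝ) < 2 * R / Δ + 1 := Nat.ceil_lt_add_one (by positivity)
    push_cast
    have h1 : ((⌈2 * R / Δ⌉₊ : ℝ) + 1) * Δ ≤ (2 * R / Δ + 2) * Δ :=
      mul_le_mul_of_nonneg_right (by linarith) hΔ0.le
    have h2 : (2 * R / Δ + 2) * Δ = 2 * R + 2 * Δ := by field_simp
    linarith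
  rw [hcomm]
  have hAm : 0 ≤ A * m := mul_nonneg hA (by linarith)
  calc Δ * ∑ j ∈ range (⌈2 * R / Δ⌉₊ + 1), ((Y.filter (fun p =>
        |f p (-R + (j : ℕ) * Δ)| ≤ L + 4 * T * Δ ∧ |f1 p (-R + (j : ℕ) * Δ)| ≤ 4 * T)).card : ℝ)
      ≤ Δ * ∑ j ∈ range (⌈2 * R / Δ⌉₊ + 1), A * m :=
        mul_le_mul_of_nonneg_left (Finset.sum_le_sum hpt) hΔ0.le
    _ = (((⌈2 * R / Δ⌉₊ + 1 : ℕ) : ℝ) * Δ) * (A * m) := by
        rw [Finset.sum_const, Finset.card_range, nsmul_eq_mul]
        ring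
    _ ≤ 4 * R * (A * m) := mul_le_mul_of_nonneg_right hcard hAm
    _ = 4 * R * A * m := by ring

theorem s_INT : Pool.Agent.L7h67.WB.S_INT := by
  classical
  intro α Y f f1 f2 R M L A Tm hf hf1 hR hM hL hA hTm hf2 hf1b H
  have hM0 : 0 < M := by linarith
  have hsM : 1 ≤ Real.sqrt M := Real.one_le_sqrt.2 hM
  have hsM0 : 0 < Real.sqrt M := by linarith
  have hsq : Real.sqrt M * Real.sqrt M = M := Real.mul_self_sqrt hM0.le
  have hTm0 : 0 < Tm := by linarith
  -- the number of dyadic values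
  have hx0 : 0 < Tm / Real.sqrt M := by positivity
  set h0 : ℕ := ⌊Real.logb 2 Tm⌋₊ + 1 with hh0
  have hlogT : 0 ≤ Real.log Tm := Real.log_nonneg (by linarith)
  have hlogb : 0 ≤ Real.logb 2 Tm := Real.logb_nonneg (by norm_num) (by linarith)
  have hbig : Tm ≤ 2 ^ h0 * Real.sqrt M := by
    have h1 : Real.logb 2 Tm < (h0 : ℝ) := by
      rw [hh0]; push_cast
      exact Nat.lt_floor_add_one _
    have h2 : Tm < (2 : ℝ) ^ (h0 : ℝ) := (Real.logb_lt_iff_lt_rpow (by norm_num) hTm0).1 h1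
    rw [Real.rpow_natCast] at h2
    have h3 : (0 : ℝ) < 2 ^ h0 := by positivity
    nlinarith
  -- only the values with 2 ^ h √M ≤ Tm matter
  set F : Finset ℕ := (range h0).filter (fun h => 2 ^ h * Real.sqrt M ≤ Tm) with hF
  set Tv : ℕ → ℝ := fun h => 2 ^ h * Real.sqrt M with hTv
  set Dv : ℝ → ℝ := fun T => min 1 (T / (8 * M)) with hDv
  have hTv1 : ∀ h, Real.sqrt M ≤ Tv h := by
    intro h
    have : (1 : ℝ) ≤ 2 ^ h := one_le_pow₀ (by norm_num)
    show Real.sqrt M ≤ 2 ^ h * Real.sqrt M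
    nlinarith
  have hTv0 : ∀ h, 0 < Tv h := fun h => lt_of_lt_of_le hsM0 (hTv1 h)
  have hDv0 : ∀ T, 0 < T → 0 < Dv T := fun T hT => lt_min one_pos (by positivity)
  -- covering
  have hcov : ∀ p ∈ Y, volume {θ : ℝ | |θ| ≤ R ∧ |f p θ| ≤ L} ≤
      ENNReal.ofReal (Dv (Real.sqrt M) *
        (nw (f p) (f1 p) R L (Real.sqrt M) (Dv (Real.sqrt M)) : ℝ)) +
      ∑ h ∈ F, ENNReal.ofReal (4 * L / Tv h * (nw (f p) (f1 p) R L (Tv h) (Dv (Tv h)) : ℝ)) := by
    intro p hp
    have hw0 := (win (f p) (f1 p) (f2 p) R M L (Real.sqrt M) (Dv (Real.sqrt M)) (hf p) (hf1 p) hR hM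
      (hf2 p hp) hL le_rfl rfl).2
    have hw := fun h => (win (f p) (f1 p) (f2 p) R M L (Tv h) (Dv (Tv h)) (hf p) (hf1 p) hR hM
      (hf2 p hp) hL (hTv1 h) rfl).1
    have hsub : {θ : ℝ | |θ| ≤ R ∧ |f p θ| ≤ L} ⊆
        {θ : ℝ | |θ| ≤ R ∧ |f p θ| ≤ L ∧ |f1 p θ| ≤ Real.sqrt M} ∪
        ⋃ h ∈ F, {θ : ℝ | |θ| ≤ R ∧ |f p θ| ≤ L ∧ Tv h ≤ |f1 p θ| ∧ |f1 p θ| ≤ 2 * Tv h} := by
      rintro θ ⟨h1, h2⟩
      rcases le_or_gt (|f1 p θ|) (Real.sqrt M) with h | h
      · left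
        exact ⟨h1, h2, h⟩
      · right
        have hle : |f1 p θ| ≤ Tm := hf1b p hp θ (by linarith)
        have hex : ∃ n : ℕ, |f1 p θ| ≤ Tv n := ⟨h0, hle.trans hbig⟩
        set n := Nat.find hex with hn
        have hn1 : |f1 p θ| ≤ Tv n := Nat.find_spec hex
        have hn0 : n ≠ 0 := by
          intro h00
          rw [h00] at hn1
          have : Tv 0 = Real.sqrt M := by simp [hTv]
          rw [this] at hn1
          linarith
        obtain ⟨l, hl⟩ := Nat.exists_eq_succ_of_ne_zero hn0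
        have hl1 : Tv l < |f1 p θ| := by
          have := Nat.find_min hex (m := l) (by omega)
          exact not_le.1 this
        have hl2 : |f1 p θ| ≤ 2 * Tv l := by
          rw [hl] at hn1
          have : Tv (l.succ) = 2 * Tv l := by
            simp only [hTv, Nat.succ_eq_add_one, pow_succ]
            ring
          rwa [this] at hn1
        have hlF : l ∈ F := by
          rw [hF, Finset.mem_filter, Finset.mem_range]
          refine ⟨?_, hl1.le.trans hle⟩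
          have : n ≤ h0 := Nat.find_min' hex (hle.trans hbig)
          omega
        exact Set.mem_biUnion hlF ⟨h1, h2, hl1.le, hl2⟩
    calc volume {θ : ℝ | |θ| ≤ R ∧ |f p θ| ≤ L} ≤ _ := measure_mono hsub
      _ ≤ _ := measure_union_le _ _
      _ ≤ _ := add_le_add hw0 ((measure_biUnion_finset_le F _).trans
          (Finset.sum_le_sum fun h _ => hw h))
  -- the sums over p
  have hm0 : Dv (Real.sqrt M) * ∑ p ∈ Y, (nw (f p) (f1 p) R L (Real.sqrt M)
      (Dv (Real.sqrt M)) : ℝ) ≤ 4 * R * A := by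
    have h1 := sum_nw α Y f f1 R M L A Tm (Real.sqrt M) (Dv (Real.sqrt M)) hR hM hL hA le_rfl
      (by linarith) rfl H
    refine h1.trans ?_
    have h2 : Real.sqrt M * min 1 (Real.sqrt M / M) ≤ 1 := by
      calc Real.sqrt M * min 1 (Real.sqrt M / M) ≤ Real.sqrt M * (Real.sqrt M / M) :=
            mul_le_mul_of_nonneg_left (min_le_right _ _) hsM0.le
        _ = 1 := by rw [← mul_div_assoc, hsq, div_self hM0.ne']
    have h3 : 0 ≤ 4 * R * A := by positivity
    calc 4 * R * A * (Real.sqrt M * min 1 (Real.sqrt M / M)) ≤ 4 * R * A * 1 :=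
          mul_le_mul_of_nonneg_left h2 h3
      _ = 4 * R * A := by ring
  have hmh : ∀ h ∈ F, 4 * L / Tv h * ∑ p ∈ Y, (nw (f p) (f1 p) R L (Tv h) (Dv (Tv h)) : ℝ) ≤
      128 * R * L * A := by
    intro h hh
    have hTh : Tv h ≤ Tm := (Finset.mem_filter.1 hh).2
    have h1 := sum_nw α Y f f1 R M L A Tm (Tv h) (Dv (Tv h)) hR hM hL hA (hTv1 h)
      (by linarith) rfl H
    set S := ∑ p ∈ Y, (nw (f p) (f1 p) R L (Tv h) (Dv (Tv h)) : ℝ) with hS
    have hD := hDv0 _ (hTv0 h)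
    have hmin : min 1 (Tv h / M) ≤ 8 * Dv (Tv h) := by
      show min 1 (Tv h / M) ≤ 8 * min 1 (Tv h / (8 * M))
      rcases le_total 1 (Tv h / (8 * M)) with h2 | h2
      · rw [min_eq_left h2]
        exact (min_le_left _ _).trans (by norm_num)
      · rw [min_eq_right h2]
        refine (min_le_right _ _).trans (le_of_eq ?_)
        field_simp
    have hRA : 0 ≤ 4 * R * A := by positivity
    have h3 : Dv (Tv h) * S ≤ Dv (Tv h) * (32 * R * A * Tv h) := by
      calc Dv (Tv h) * S ≤ 4 * R * A * (Tv h * min 1 (Tv h / M)) := h1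
        _ ≤ 4 * R * A * (Tv h * (8 * Dv (Tv h))) := by
            refine mul_le_mul_of_nonneg_left ?_ hRA
            exact mul_le_mul_of_nonneg_left hmin (hTv0 h).le
        _ = Dv (Tv h) * (32 * R * A * Tv h) := by ring
    have h4 : S ≤ 32 * R * A * Tv h := le_of_mul_le_mul_left h3 hD
    have h5 : 0 ≤ 4 * L / Tv h := by
      have := hTv0 h
      positivity
    calc 4 * L / Tv h * S ≤ 4 * L / Tv h * (32 * R * A * Tv h) := mul_le_mul_of_nonneg_left h4 h5
      _ = 128 * R * L * A := by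
          have := (hTv0 h).ne'
          field_simp
          ring
  have hFc : (F.card : ℝ) ≤ 1 + 2 * Real.log Tm := by
    have h1 : F.card ≤ h0 := by
      calc F.card ≤ (range h0).card := Finset.card_filter_le _ _
        _ = h0 := Finset.card_range _
    have h2 : (F.card : ℝ) ≤ (h0 : ℝ) := by exact_mod_cast h1
    have h3 : (h0 : ℝ) ≤ Real.logb 2 Tm + 1 := by
      rw [hh0]; push_cast
      linarith [Nat.floor_le hlogb]
    have h4 : Real.logb 2 Tm ≤ 2 * Real.log Tm := by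
      rw [Real.logb, div_le_iff₀ (Real.log_pos (by norm_num))]
      have := Real.log_two_gt_d9
      nlinarith
    linarith
  calc ∑ p ∈ Y, volume {θ : ℝ | |θ| ≤ R ∧ |f p θ| ≤ L}
      ≤ ∑ p ∈ Y, (ENNReal.ofReal (Dv (Real.sqrt M) *
        (nw (f p) (f1 p) R L (Real.sqrt M) (Dv (Real.sqrt M)) : ℝ)) +
        ∑ h ∈ F, ENNReal.ofReal (4 * L / Tv h *
          (nw (f p) (f1 p) R L (Tv h) (Dv (Tv h)) : ℝ))) := Finset.sum_le_sum hcov
    _ = ENNReal.ofReal (Dv (Real.sqrt M) * ∑ p ∈ Y,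
          (nw (f p) (f1 p) R L (Real.sqrt M) (Dv (Real.sqrt M)) : ℝ)) +
        ∑ h ∈ F, ENNReal.ofReal (4 * L / Tv h * ∑ p ∈ Y,
          (nw (f p) (f1 p) R L (Tv h) (Dv (Tv h)) : ℝ)) := by
        rw [Finset.sum_add_distrib]
        congr 1
        · rw [Finset.mul_sum, ENNReal.ofReal_sum_of_nonneg]
          intro p _
          have := hDv0 _ hsM0
          positivity
        · rw [Finset.sum_comm]
          refine Finset.sum_congr rfl fun h _ => ?_
          rw [Finset.mul_sum, ENNReal.ofReal_sum_of_nonneg]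
          intro p _
          have := hTv0 h
          positivity
    _ ≤ ENNReal.ofReal (4 * R * A) + ∑ h ∈ F, ENNReal.ofReal (128 * R * L * A) := by
        refine add_le_add (ENNReal.ofReal_le_ofReal hm0) (Finset.sum_le_sum fun h hh => ?_)
        exact ENNReal.ofReal_le_ofReal (hmh h hh)
    _ = ENNReal.ofReal (4 * R * A + F.card * (128 * R * L * A)) := by
        have hp1 : 0 ≤ 4 * R * A := by positivity
        have hp2 : 0 ≤ 128 * R * L * A := by positivity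
        rw [Finset.sum_const, nsmul_eq_mul, ← ENNReal.ofReal_natCast, ← ENNReal.ofReal_mul
          (Nat.cast_nonneg _), ← ENNReal.ofReal_add hp1 (by positivity)]
    _ ≤ ENNReal.ofReal (1000 * R * L * A * (1 + Real.log Tm)) := by
        refine ENNReal.ofReal_le_ofReal ?_
        have hRA : 0 ≤ R * A := by positivity
        have hRLA : 0 ≤ R * L * A := by positivity
        have h1 : R * A ≤ R * L * A := by
          nlinarith
        have h2 : (F.card : ℝ) * (128 * R * L * A) ≤ (1 + 2 * Real.log Tm) * (128 * R * L * A) :=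
          mul_le_mul_of_nonneg_right hFc (by positivity)
        have h3 : 0 ≤ R * L * A * Real.log Tm := mul_nonneg hRLA hlogT
        nlinarith

end Pool.Agent.L7h37.WB
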