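import Pool.Agent.L7h67.WB.Stm

/-! Project WB of helper67 (hard anchor MP_570bef_nt): `S_WIN` (sublevel sets by windows). -/

set_option autoImplicit false

namespace Pool.Agent.L7h37.WB

open Finset MeasureTheory

/-- the number of the good windows -/
noncomputable def nw (f f1 : ℝ → ℝ) (R L T Δ : ℝ) : ℕ :=
  (open Classical in #{j ∈ range (⌈2 * R / Δ⌉₊ + 1) |
      |f (-R + (j : ℕ) * Δ)| ≤ L + 4 * T * Δ ∧ |f1 (-R + (j : ℕ) * Δ)| ≤ 4 * T} : ℕ)

/-- union bound -/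
theorem vol_cover (S : Set ℝ) (F : Finset ℕ) (I : ℕ → Set ℝ) (d : ℝ) (hd : 0 ≤ d)
    (h1 : ∀ θ ∈ S, ∃ j ∈ F, θ ∈ I j) (h2 : ∀ j ∈ F, ∀ x ∈ S ∩ I j, ∀ y ∈ S ∩ I j, |x - y| ≤ d) :
    volume S ≤ ENNReal.ofReal (d * (F.card : ℝ)) := by
  have hsub : S ⊆ ⋃ j ∈ F, S ∩ I j := by
    intro θ hθ
    obtain ⟨j, hj, hj'⟩ := h1 θ hθ
    exact Set.mem_biUnion hj ⟨hθ, hj'⟩
  calc volume S ≤ volume (⋃ j ∈ F, S ∩ I j) := measure_mono hsub
    _ ≤ ∑ j ∈ F, volume (S ∩ I j) := measure_biUnion_finset_le F _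
    _ ≤ ∑ j ∈ F, ENNReal.ofReal d := by
        refine Finset.sum_le_sum fun j hj => ?_
        refine (Real.volume_le_diam _).trans (Metric.ediam_le ?_)
        intro x hx y hy
        rw [edist_dist, Real.dist_eq]
        exact ENNReal.ofReal_le_ofReal (h2 j hj x hx y hy)
    _ = ENNReal.ofReal (d * (F.card : ℝ)) := by
        rw [Finset.sum_const, nsmul_eq_mul, mul_comm d, ENNReal.ofReal_mul (Nat.cast_nonneg _),
          ENNReal.ofReal_natCast]

/-- mean value inequality on a segment inside `[-R - 2, R + 2]` -/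
theorem mvt_le (g g' : ℝ → ℝ) (hg : ∀ θ, HasDerivAt g (g' θ) θ) (a b K : ℝ) (hab : a ≤ b)
    (hK : ∀ θ, a ≤ θ → θ ≤ b → |g' θ| ≤ K) : |g b - g a| ≤ K * (b - a) := by
  rcases eq_or_lt_of_le hab with h | h
  · rw [h]; simp
  · obtain ⟨c, hc, hc'⟩ := exists_hasDerivAt_eq_slope g g' h
      (fun x _ => (hg x).continuousAt.continuousWithinAt) (fun x _ => hg x)
    have hba : 0 < b - a := by linarith
    have e : g b - g a = g' c * (b - a) := by
      rw [hc']; field_simp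
    rw [e, abs_mul, abs_of_pos hba]
    exact mul_le_mul_of_nonneg_right (hK c hc.1.le hc.2.le) hba.le

theorem win (f f1 f2 : ℝ → ℝ) (R M L T Δ : ℝ) (hf : ∀ θ, HasDerivAt f (f1 θ) θ)
    (hf1 : ∀ θ, HasDerivAt f1 (f2 θ) θ) (hR : 1 ≤ R) (hM : 1 ≤ M)
    (hf2 : ∀ θ, |θ| ≤ R + 2 → |f2 θ| ≤ M) (hL : 1 ≤ L) (hT : Real.sqrt M ≤ T)
    (hΔ : Δ = min 1 (T / (8 * M))) :
    volume {θ : ℝ | |θ| ≤ R ∧ |f θ| ≤ L ∧ T ≤ |f1 θ| ∧ |f1 θ| ≤ 2 * T} ≤
      ENNReal.ofReal (4 * L / T * (nw f f1 R L T Δ : ℝ)) ∧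
    volume {θ : ℝ | |θ| ≤ R ∧ |f θ| ≤ L ∧ |f1 θ| ≤ T} ≤
      ENNReal.ofReal (Δ * (nw f f1 R L T Δ : ℝ)) := by
  classical
  have hM0 : 0 < M := by linarith
  have hsM : 1 ≤ Real.sqrt M := Real.one_le_sqrt.2 hM
  have hT0 : 0 < T := by linarith
  have hΔ0 : 0 < Δ := by
    rw [hΔ]
    exact lt_min one_pos (by positivity)
  have hΔ1 : Δ ≤ 1 := by rw [hΔ]; exact min_le_left _ _
  have hMΔ : M * Δ ≤ T / 8 := by
    have h0 : Δ ≤ T / (8 * M) := by rw [hΔ]; exact min_le_right _ _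
    calc M * Δ ≤ M * (T / (8 * M)) := mul_le_mul_of_nonneg_left h0 hM0.le
      _ = T / 8 := by field_simp
  set F : Finset ℕ := {j ∈ range (⌈2 * R / Δ⌉₊ + 1) |
      |f (-R + (j : ℕ) * Δ)| ≤ L + 4 * T * Δ ∧ |f1 (-R + (j : ℕ) * Δ)| ≤ 4 * T} with hF
  have hnw : nw f f1 R L T Δ = F.card := rfl
  set I : ℕ → Set ℝ := fun j => Set.Icc (-R + (j : ℕ) * Δ) (-R + (j : ℕ) * Δ + Δ) with hI
  -- every point of the sets lies in a good window
  have hwin : ∀ θ, |θ| ≤ R → |f θ| ≤ L → |f1 θ| ≤ 2 * T → ∃ j ∈ F, θ ∈ I j := by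
    intro θ h1 h2 h3
    obtain ⟨hθ1, hθ2⟩ := abs_le.1 h1
    have hq0 : 0 ≤ (θ + R) / Δ := by
      apply div_nonneg _ hΔ0.le
      linarith
    set j := ⌊(θ + R) / Δ⌋₊ with hj
    have hj1 : (j : ℝ) ≤ (θ + R) / Δ := Nat.floor_le hq0
    have hj2 : (θ + R) / Δ < j + 1 := Nat.lt_floor_add_one _
    rw [le_div_iff₀ hΔ0] at hj1
    rw [div_lt_iff₀ hΔ0] at hj2
    set a : ℝ := -R + (j : ℕ) * Δ with ha
    have haθ : a ≤ θ := by rw [ha]; linarith
    have hθa : θ ≤ a + Δ := by rw [ha]; linarith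
    have haR : -R ≤ a := by
      have : 0 ≤ (j : ℝ) * Δ := by positivity
      rw [ha]; linarith
    have hb2 : ∀ t, a ≤ t → t ≤ θ → |f2 t| ≤ M := fun t ht1 ht2 =>
      hf2 t (abs_le.2 ⟨by linarith, by linarith⟩)
    have hb1 : ∀ t, a ≤ t → t ≤ θ → |f1 t| ≤ 4 * T := by
      intro t ht1 ht2
      have := mvt_le f1 f2 hf1 t θ M ht2 (fun s hs1 hs2 => hb2 s (ht1.trans hs1) hs2)
      have h4 : |f1 t| ≤ |f1 θ| + |f1 θ - f1 t| := by
        have := abs_sub_abs_le_abs_sub (f1 t) (f1 θ)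
        rw [abs_sub_comm (f1 t)] at this
        linarith
      have h5 : M * (θ - t) ≤ M * Δ := mul_le_mul_of_nonneg_left (by linarith) hM0.le
      linarith
    refine ⟨j, ?_, haθ, hθa⟩
    rw [hF, Finset.mem_filter, Finset.mem_range]
    refine ⟨?_, ?_, ?_⟩
    · refine Nat.lt_succ_of_le (Nat.floor_le_floor ?_ |>.trans (Nat.floor_le_ceil _))
      apply div_le_div_of_nonneg_right _ hΔ0.le
      linarith
    · have := mvt_le f f1 hf a θ (4 * T) haθ hb1
      have h4 : |f a| ≤ |f θ| + |f θ - f a| := by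
        have := abs_sub_abs_le_abs_sub (f a) (f θ)
        rw [abs_sub_comm (f a)] at this
        linarith
      have h5 : 4 * T * (θ - a) ≤ 4 * T * Δ :=
        mul_le_mul_of_nonneg_left (by linarith) (by positivity)
      show |f a| ≤ _
      linarith
    · exact hb1 a le_rfl haθ
  refine ⟨?_, ?_⟩
  · rw [hnw]
    refine vol_cover _ F I (4 * L / T) (by positivity) ?_ ?_
    · rintro θ ⟨h1, h2, h3, h4⟩
      exact hwin θ h1 h2 h4
    · rintro j hj x ⟨⟨x1, x2, x3, x4⟩, x5⟩ y ⟨⟨y1, y2, y3, y4⟩, y5⟩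
      -- wlog x ≤ y
      have key : ∀ x y : ℝ, |x| ≤ R → |f x| ≤ L → T ≤ |f1 x| → |y| ≤ R → |f y| ≤ L →
          x ∈ I j → y ∈ I j → x ≤ y → |x - y| ≤ 4 * L / T := by
        intro x y x1 x2 x3 y1 y2 x5 y5 hxy
        rcases eq_or_lt_of_le hxy with h | h
        · rw [h]
          simp only [sub_self, abs_zero]
          positivity
        · obtain ⟨c, hc, hc'⟩ := exists_hasDerivAt_eq_slope f f1 h
            (fun x _ => (hf x).continuousAt.continuousWithinAt) (fun x _ => hf x)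
          have hyx : 0 < y - x := by linarith
          have e : f y - f x = f1 c * (y - x) := by
            rw [hc']; field_simp
          have hlen : y - x ≤ Δ := by
            have e1 := x5.1
            have e2 := y5.2
            linarith
          have hm := mvt_le f1 f2 hf1 x c M hc.1.le (fun s hs1 hs2 => hf2 s (by
            rw [abs_le] at x1 y1 ⊢
            constructor <;> linarith [hc.2]))
          have hcc : M * (c - x) ≤ M * Δ :=
            mul_le_mul_of_nonneg_left (by linarith [hc.2]) hM0.le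
          have h4 : |f1 x| ≤ |f1 c| + |f1 c - f1 x| := by
            have := abs_sub_abs_le_abs_sub (f1 x) (f1 c)
            rw [abs_sub_comm (f1 x)] at this
            linarith
          have h5 : T / 2 ≤ |f1 c| := by linarith
          have h6 : |f y - f x| ≤ 2 * L := by
            have := abs_sub (f y) (f x)
            linarith
          rw [e, abs_mul, abs_of_pos hyx] at h6
          have h7 : T / 2 * (y - x) ≤ 2 * L :=
            (mul_le_mul_of_nonneg_right h5 hyx.le).trans h6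
          rw [abs_sub_comm, abs_of_pos hyx, le_div_iff₀ hT0]
          linarith
      rcases le_total x y with h | h
      · exact key x y x1 x2 x3 y1 y2 x5 y5 h
      · rw [abs_sub_comm]
        exact key y x y1 y2 y3 x1 x2 y5 x5 h
  · rw [hnw]
    refine vol_cover _ F I Δ hΔ0.le ?_ ?_
    · rintro θ ⟨h1, h2, h3⟩
      exact hwin θ h1 h2 (by linarith)
    · rintro j hj x ⟨_, x5⟩ y ⟨_, y5⟩
      rw [abs_le]
      have e1 := x5.1
      have e2 := x5.2
      have e3 := y5.1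
      have e4 := y5.2
      constructor <;> linarith

theorem s_WIN : Pool.Agent.L7h67.WB.S_WIN := by
  intro f f1 f2 R M L T Δ hf hf1 hR hM hf2 hL hT hΔ
  exact win f f1 f2 R M L T Δ hf hf1 hR hM hf2 hL hT hΔ

end Pool.Agent.L7h37.WB
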